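import Pool.Agent.H.MP_badb58_gt.A

set_option autoImplicit false

namespace Pool.Agent.H.MP_9fb79a_gt

open Set Topology Filter
open Pool.Agent.H.MP_badb58_gt (PS box_open sat sat_sub)

def WF (Y : Type) [TopologicalSpace Y] : Prop :=
  T0Space Y ∧ ∀ (𝒦 : Set (Set Y)) (U : Set Y),
    (∀ K ∈ 𝒦, IsCompact K ∧ ∀ y : Y, (∀ V : Set Y, IsOpen V → K ⊆ V → y ∈ V) → y ∈ K) →
    𝒦.Nonempty → (∀ K₁ ∈ 𝒦, ∀ K₂ ∈ 𝒦, ∃ K₃ ∈ 𝒦, K₃ ⊆ K₁ ∩ K₂) →
    IsOpen U → ⋂₀ 𝒦 ⊆ U → ∃ K ∈ 𝒦, K ⊆ U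

def SK (Y : Type) [TopologicalSpace Y] : Prop :=
  T0Space Y ∧ ∀ x : ℕ → Y, (∀ j, Tendsto x atTop (𝓝 (x j))) →
    ∃ y, closure (range x) = closure {y}

lemma WF.sk {Y : Type} [TopologicalSpace Y] (h : WF Y) : SK Y := by
  refine ⟨h.1, fun x hx => ?_⟩
  let K : ℕ → Set Y := fun n => nhdsKer (range fun k => x (k + n))
  have hK : ∀ n, IsCompact (K n) := by
    intro n
    have h1 := ((hx n).comp (tendsto_add_atTop_nat n)).isCompact_insert_range
    rw [insert_eq_of_mem (show x n ∈ range (x ∘ fun k => k + n) from ⟨0, by simp⟩)] at h1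
    exact h1.nhdsKer
  have hm : Antitone K := by
    intro n m h
    refine nhdsKer_mono ?_
    rintro _ ⟨k, rfl⟩
    exact ⟨k + (m - n), congrArg x (by omega)⟩
  by_contra hcon
  obtain ⟨_, ⟨n, rfl⟩, hn⟩ := h.2 (range K) (closure (range x))ᶜ
    (by
      rintro _ ⟨n, rfl⟩
      refine ⟨hK n, fun y hy => ?_⟩
      show y ∈ nhdsKer _
      rw [nhdsKer_def]
      rintro U ⟨hU, hSU⟩
      exact hy U hU (hU.nhdsKer_subset.2 hSU))
    (range_nonempty K)
    (by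
      rintro _ ⟨n, rfl⟩ _ ⟨m, rfl⟩
      exact ⟨K (n + m), ⟨_, rfl⟩, subset_inter (hm (by omega)) (hm (by omega))⟩)
    isClosed_closure.isOpen_compl
    (by
      intro y hy hy'
      refine hcon ⟨y, subset_antisymm (closure_minimal ?_ isClosed_closure)
        (closure_minimal (singleton_subset_iff.2 hy') isClosed_closure)⟩
      rintro _ ⟨j, rfl⟩
      rw [mem_closure_iff]
      intro V hV hj
      obtain ⟨N, hN⟩ := eventually_atTop.1 ((hx j).eventually (hV.mem_nhds hj))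
      refine ⟨y, ?_, rfl⟩
      refine hV.nhdsKer_subset.2 ?_ (hy (K N) ⟨N, rfl⟩)
      rintro _ ⟨k, rfl⟩
      exact hN _ (by omega))
  exact hn (subset_nhdsKer ⟨0, rfl⟩) (subset_closure ⟨_, rfl⟩)

lemma WF_of_finite {Y : Type} [TopologicalSpace Y] [T0Space Y]
    (h : ∀ K : Set Y, IsCompact K → K.Finite) : WF Y := by
  refine ⟨inferInstance, fun 𝒦 U h1 h2 h3 _ h5 => ?_⟩
  obtain ⟨K, hK, hmin⟩ := exists_min_image' 𝒦 h2
  refine ⟨K, hK, fun x hx => h5 fun K' hK' => ?_⟩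
  obtain ⟨L, hL, hL'⟩ := h3 K hK K' hK'
  have : L = K := eq_of_subset_of_ncard_le (hL'.trans inter_subset_left) (hmin L hL)
    (h K (h1 K hK).1)
  exact (hL' (this ▸ hx)).2
where
  exists_min_image' (𝒦 : Set (Set Y)) (h : 𝒦.Nonempty) :
      ∃ K ∈ 𝒦, ∀ L ∈ 𝒦, K.ncard ≤ L.ncard :=
    ⟨Function.argminOn Set.ncard 𝒦 h, Function.argminOn_mem _ _ _,
      fun _ hL => Function.argminOn_le _ _ hL⟩

def Big (W : Set (ℕ → ℕ)) : Prop := ∃ g : ℕ → ℕ, ∀ f : ℕ → ℕ, (∀ᶠ n in atTop, g n ≤ f n) → f ∈ W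

lemma Big.mono {V W : Set (ℕ → ℕ)} (h : Big V) (h' : V ⊆ W) : Big W :=
  h.imp fun _ hg f hf => h' (hg f hf)

lemma Big.inter {V W : Set (ℕ → ℕ)} (h : Big V) (h' : Big W) : Big (V ∩ W) := by
  obtain ⟨g, hg⟩ := h
  obtain ⟨g', hg'⟩ := h'
  exact ⟨fun n => g n + g' n, fun f hf => ⟨hg f (hf.mono fun n hn => le_trans (Nat.le_add_right _ _) hn),
    hg' f (hf.mono fun n hn => le_trans (Nat.le_add_left _ _) hn)⟩⟩

lemma Big.nonempty {V : Set (ℕ → ℕ)} (h : Big V) : V.Nonempty :=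
  h.imp fun g hg => hg g (Eventually.of_forall fun _ => le_rfl)

lemma big_seq (s : ℕ → ℕ → ℕ) : Big {f | ∀ i, f ≠ s i} := by
  refine ⟨fun m => 1 + ∑ i ∈ Finset.range (m + 1), s i m, fun f hf i h => ?_⟩
  obtain ⟨m, h1, h2⟩ := (hf.and (eventually_ge_atTop i)).exists
  have := Finset.single_le_sum (f := fun i => s i m) (fun _ _ => Nat.zero_le _)
    (Finset.mem_range.2 (show i < m + 1 by omega))
  rw [h] at h1
  simp only at h1 this
  omega

inductive XX : Type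
  | c : ℕ → ℕ → XX
  | d : (ℕ → ℕ) → XX
  | e : ℕ → XX

open XX

def Op (U : Set XX) : Prop :=
  (∀ n k l, k ≤ l → c n k ∈ U → c n l ∈ U) ∧ (∀ f, d f ∈ U → ∀ᶠ n in atTop, c n (f n) ∈ U) ∧
    ((∃ f, d f ∈ U) ∨ (∃ n, e n ∈ U) → (∀ᶠ n in atTop, e n ∈ U) ∧ Big {f | d f ∈ U})

instance : TopologicalSpace XX where
  IsOpen := Op
  isOpen_univ := ⟨fun _ _ _ _ _ => trivial, fun _ _ => Eventually.of_forall fun _ => trivial,
    fun _ => ⟨Eventually.of_forall fun _ => trivial, fun _ => 0, fun _ _ => trivial⟩⟩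
  isOpen_inter U V hU hV := by
    refine ⟨fun n k l h hk => ⟨hU.1 n k l h hk.1, hV.1 n k l h hk.2⟩,
      fun f hf => (hU.2.1 f hf.1).and (hV.2.1 f hf.2), fun h => ?_⟩
    have h1 := hU.2.2 (h.imp (fun ⟨f, hf⟩ => ⟨f, hf.1⟩) (fun ⟨f, hf⟩ => ⟨f, hf.1⟩))
    have h2 := hV.2.2 (h.imp (fun ⟨f, hf⟩ => ⟨f, hf.2⟩) (fun ⟨f, hf⟩ => ⟨f, hf.2⟩))
    exact ⟨h1.1.and h2.1, h1.2.inter h2.2⟩
  isOpen_sUnion S hS := by
    refine ⟨?_, ?_, ?_⟩
    · rintro n k l h ⟨U, hU, hk⟩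
      exact ⟨U, hU, (hS U hU).1 n k l h hk⟩
    · rintro f ⟨U, hU, hf⟩
      exact ((hS U hU).2.1 f hf).mono fun n hn => ⟨U, hU, hn⟩
    · intro h
      obtain ⟨U, hU, h⟩ : ∃ U ∈ S, (∃ f, d f ∈ U) ∨ (∃ n, e n ∈ U) := by
        rcases h with ⟨f, U, hU, h⟩ | ⟨f, U, hU, h⟩
        · exact ⟨U, hU, Or.inl ⟨f, h⟩⟩
        · exact ⟨U, hU, Or.inr ⟨f, h⟩⟩
      have := (hS U hU).2.2 h
      exact ⟨this.1.mono fun n hn => ⟨U, hU, hn⟩, this.2.mono fun f hf => ⟨U, hU, hf⟩⟩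

lemma openX {U : Set XX} : IsOpen U ↔ Op U := Iff.rfl

lemma open_top {U : Set XX} (h1 : ∀ n k, c n k ∈ U) (h2 : ∀ᶠ n in atTop, e n ∈ U)
    (h3 : Big {f | d f ∈ U}) : IsOpen U :=
  openX.2 ⟨fun _ _ _ _ _ => h1 _ _, fun _ _ => Eventually.of_forall fun _ => h1 _ _,
    fun _ => ⟨h2, h3⟩⟩

lemma big_univ : Big univ := ⟨fun _ => 0, fun _ _ => trivial⟩

lemma closed_d (f : ℕ → ℕ) : IsClosed ({d f} : Set XX) :=
  ⟨open_top (by simp) (by simp) ((big_seq fun _ => f).mono fun g hg => by simpa using hg 0)⟩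

lemma closed_e (n : ℕ) : IsClosed ({e n} : Set XX) :=
  ⟨open_top (by simp) ((eventually_ne_atTop n).mono fun m hm => by simpa using hm)
    (big_univ.mono fun g _ => by simp)⟩

lemma open_col (n : ℕ) (S : Set ℕ) (hS : ∀ k l, k ≤ l → l ∈ S → k ∈ S) :
    IsOpen (c n '' S)ᶜ := by
  refine openX.2 ⟨?_, fun f _ => (eventually_ne_atTop n).mono ?_, fun _ =>
    ⟨Eventually.of_forall (by simp), big_univ.mono fun g _ => by simp⟩⟩
  · rintro m k l h hk ⟨j, hj, h'⟩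
    cases h'
    exact hk ⟨k, hS _ _ h hj, rfl⟩
  · rintro m hm ⟨j, -, h'⟩
    cases h'
    exact hm rfl

lemma open_col' (n : ℕ) : IsOpen (c n '' univ) :=
  openX.2 ⟨by
    rintro m k l - ⟨j, -, h⟩
    cases h
    exact ⟨l, trivial, rfl⟩, by simp, by simp⟩

instance : T0Space XX := by
  refine ⟨fun a b h => ?_⟩
  have key : ∀ a b : XX, Inseparable a b → IsClosed ({a} : Set XX) → a = b := fun a b h ha =>
    ((h.mem_closed_iff ha).1 rfl).symm
  cases a with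
  | d f => exact key _ _ h (closed_d f)
  | e n => exact key _ _ h (closed_e n)
  | c n k =>
    cases b with
    | d f => exact (key _ _ h.symm (closed_d f)).symm
    | e m => exact (key _ _ h.symm (closed_e m)).symm
    | c m l =>
      have h1 := h.mem_open_iff (open_col n (Iic k) fun _ _ h h' => le_trans h h')
      have h2 := h.mem_open_iff (open_col m (Iic l) fun _ _ h h' => le_trans h h')
      rw [mem_compl_iff, mem_compl_iff, not_iff_not] at h1 h2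
      obtain ⟨j, hj, h3⟩ := h1.1 ⟨k, self_mem_Iic, rfl⟩
      obtain ⟨i, hi, h4⟩ := h2.2 ⟨l, self_mem_Iic, rfl⟩
      cases h3
      cases h4
      rw [le_antisymm (show k ≤ _ from hi) hj]

lemma classify {A : Set XX} (hA : IsClosed A) (hi : IsIrreducible A) :
    ∃ x : ℕ → XX, (∀ k, x k ∈ A) ∧ ∀ a ∈ A, Tendsto x atTop (𝓝 a) := by
  have hirr := isPreirreducible_iff_isClosed_union_isClosed.1 hi.2
  by_cases h : ∃ n k, c n k ∈ A
  · obtain ⟨n, k, hk⟩ := h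
    have hsub : A ⊆ c n '' univ := by
      rcases hirr (c n '' univ) (c n '' univ)ᶜ ⟨open_col n univ fun _ _ _ _ => trivial⟩
        (open_col' n).isClosed_compl (by simp) with h | h
      · exact h
      · exact absurd ⟨k, trivial, rfl⟩ (h hk)
    by_cases h2 : ∃ k, c n k ∈ A ∧ c n (k + 1) ∉ A
    · obtain ⟨k, h2, h3⟩ := h2
      refine ⟨fun _ => c n k, fun _ => h2, fun a ha => ?_⟩
      obtain ⟨j, -, rfl⟩ := hsub ha
      refine tendsto_nhds.2 fun V hV hj => Eventually.of_forall fun _ => ?_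
      refine (openX.1 hV).1 n j k ?_ hj
      by_contra hcon
      exact (openX.1 hA.isOpen_compl).1 n (k + 1) j (by omega) h3 ha
    · push Not at h2
      refine ⟨fun i => c n (k + i), fun i => ?_, fun a ha => ?_⟩
      · induction i with
        | zero => exact hk
        | succ i ih => exact h2 _ ih
      · obtain ⟨j, -, rfl⟩ := hsub ha
        exact tendsto_nhds.2 fun V hV hj => (eventually_ge_atTop j).mono fun i hi =>
          (openX.1 hV).1 n j _ (by omega) hj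
  · push Not at h
    by_cases h2 : ∃ n, e n ∈ Aᶜ
    · have h3 := (openX.1 hA.isOpen_compl).2.2 (Or.inr h2)
      have h4 : ∀ B ⊆ A, IsClosed B := fun B hB =>
        ⟨open_top (fun n k hk => h n k (hB hk)) (h3.1.mono fun n hn hn' => hn (hB hn'))
          (h3.2.mono fun n hn hn' => hn (hB hn'))⟩
      obtain ⟨a, ha⟩ := hi.1
      rcases hirr {a} (A \ {a}) (h4 _ (singleton_subset_iff.2 ha)) (h4 _ sdiff_subset)
        (fun x hx => by by_cases h : x = a <;> simp [h, hx]) with h5 | h5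
      · refine ⟨fun _ => a, fun _ => ha, fun b hb => ?_⟩
        rw [h5 hb]; exact tendsto_const_nhds
      · exact absurd rfl (h5 ha).2
    · push Not at h2
      refine ⟨e, fun k => not_not.1 (h2 k), fun a ha => tendsto_nhds.2 fun V hV hj => ?_⟩
      cases a with
      | c n k => exact absurd ha (h n k)
      | d f => exact ((openX.1 hV).2.2 (Or.inl ⟨f, hj⟩)).1
      | e n => exact ((openX.1 hV).2.2 (Or.inr ⟨n, hj⟩)).1

lemma det_X {A : Set XX} (hA : IsClosed A) (hi : IsIrreducible A) (Y : Type) [TopologicalSpace Y]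
    (hY : SK Y) (f : XX → Y) (hf : Continuous f) : ∃ y, closure (f '' A) = closure {y} := by
  obtain ⟨x, h1, h2⟩ := classify hA hi
  obtain ⟨y, hy⟩ := hY.2 (f ∘ x) fun j => (hf.tendsto _).comp (h2 _ (h1 j))
  refine ⟨y, hy ▸ subset_antisymm (closure_minimal ?_ isClosed_closure) (closure_mono ?_)⟩
  · rintro _ ⟨a, ha, rfl⟩
    exact mem_closure_of_tendsto ((hf.tendsto _).comp (h2 a ha))
      (Eventually.of_forall fun k => ⟨k, rfl⟩)
  · rintro _ ⟨k, rfl⟩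
    exact ⟨x k, h1 k, rfl⟩

lemma box_basis {X : Type} [TopologicalSpace X] {S : Set (PS X)} (hS : IsOpen S) {K : PS X}
    (hK : K ∈ S) : ∃ U, IsOpen U ∧ K.1 ⊆ U ∧ ∀ L : PS X, L.1 ⊆ U → L ∈ S := by
  have hS' : TopologicalSpace.GenerateOpen _ S := hS
  clear hS
  induction hS' with
  | basic S hS =>
    obtain ⟨U, hU, rfl⟩ := hS
    exact ⟨U, hU, hK, fun L hL => hL⟩
  | univ => exact ⟨univ, isOpen_univ, subset_univ _, fun _ _ => trivial⟩
  | inter s t _ _ ihs iht =>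
    obtain ⟨U, h1, h2, h3⟩ := ihs hK.1
    obtain ⟨V, h4, h5, h6⟩ := iht hK.2
    exact ⟨U ∩ V, h1.inter h4, subset_inter h2 h5, fun L hL =>
      ⟨h3 L (hL.trans inter_subset_left), h6 L (hL.trans inter_subset_right)⟩⟩
  | sUnion T _ ih =>
    obtain ⟨s, hs, hK⟩ := hK
    obtain ⟨U, h1, h2, h3⟩ := ih s hs hK
    exact ⟨U, h1, h2, fun L hL => ⟨s, hs, h3 L hL⟩⟩

def AA : Set (PS XX) := {K | (∀ n, ∃ k, c n k ∈ K.1) ∧ ((∃ f, d f ∈ K.1) ∨ ∃ n, e n ∈ K.1)}

lemma AA_closed : IsClosed AA := by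
  have h1 : IsOpen {x : XX | ∃ n k, x = c n k} :=
    openX.2 ⟨fun n _ l _ _ => ⟨n, l, rfl⟩, by simp, by simp⟩
  refine ⟨?_⟩
  convert (isOpen_iUnion fun n => box_open (open_col n univ fun _ _ _ _ => trivial)).union
    (box_open h1) using 1
  ext K
  simp only [AA, mem_compl_iff, mem_ofPred_eq, mem_union, mem_iUnion, not_and_or, not_forall,
    not_exists, not_or]
  refine or_congr (exists_congr fun n => ⟨?_, fun h k hk => h hk ⟨k, trivial, rfl⟩⟩) ⟨?_, ?_⟩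
  · rintro h _ hx ⟨k, -, rfl⟩
    exact h k hx
  · intro h x hx
    cases x with
    | c n k => exact ⟨n, k, rfl⟩
    | d f => exact absurd hx (h.1 f)
    | e n => exact absurd hx (h.2 n)
  · intro h
    exact ⟨fun f hf => by simpa using h hf, fun f hf => by simpa using h hf⟩

lemma approx {W : Set XX} (hW : IsOpen W) (h1 : ∀ n, ∃ k, c n k ∈ W) (h2 : ∃ f, d f ∈ W) :
    ∃ K ∈ AA, K.1 ⊆ W := by
  obtain ⟨f, hf⟩ := h2
  choose m hm using h1
  have ht : Tendsto (fun n => c n (f n + m n)) atTop (𝓝 (d f)) :=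
    tendsto_nhds.2 fun V hV h => ((openX.1 hV).2.1 f h).mono fun n hn =>
      (openX.1 hV).1 n _ _ (Nat.le_add_right _ _) hn
  refine ⟨sat _ (insert_nonempty _ _) ht.isCompact_insert_range,
    ⟨fun n => ⟨_, subset_nhdsKer (Or.inr ⟨n, rfl⟩)⟩, Or.inl ⟨f, subset_nhdsKer (Or.inl rfl)⟩⟩,
    (sat_sub _ _ hW).2 ?_⟩
  rintro _ (rfl | ⟨n, rfl⟩)
  · exact hf
  · exact (openX.1 hW).1 n _ _ (Nat.le_add_left _ _) (hm n)

lemma AA_irr : IsIrreducible AA := by
  refine ⟨(approx isOpen_univ (fun _ => ⟨0, trivial⟩) ⟨fun _ => 0, trivial⟩).imp fun _ h => h.1, ?_⟩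
  rintro S T hS hT ⟨K, hK, hKS⟩ ⟨L, hL, hLT⟩
  obtain ⟨U, h1, h2, h3⟩ := box_basis hS hKS
  obtain ⟨V, h4, h5, h6⟩ := box_basis hT hLT
  obtain ⟨M, hM, hM'⟩ := approx (h1.inter h4) (fun n => by
      obtain ⟨k, hk⟩ := hK.1 n
      obtain ⟨l, hl⟩ := hL.1 n
      exact ⟨k + l, (openX.1 h1).1 n _ _ (by omega) (h2 hk),
        (openX.1 h4).1 n _ _ (by omega) (h5 hl)⟩)
    (((openX.1 h1).2.2 (hK.2.imp (fun ⟨f, hf⟩ => ⟨f, h2 hf⟩) fun ⟨f, hf⟩ => ⟨f, h2 hf⟩)).2.inter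
      ((openX.1 h4).2.2 (hL.2.imp (fun ⟨f, hf⟩ => ⟨f, h5 hf⟩)
        fun ⟨f, hf⟩ => ⟨f, h5 hf⟩)).2).nonempty
  exact ⟨M, hM, h3 M (hM'.trans inter_subset_left), h6 M (hM'.trans inter_subset_right)⟩

lemma AA_d {K : PS XX} (hK : K ∈ AA) : ∃ f, d f ∈ K.1 := by
  by_contra hcon
  push Not at hcon
  choose g hg using hK.1
  let U : ℕ → Set XX := fun N => {x | (∀ n k, x = c n k → N ≤ n → g n < k) ∧
    ∀ f, x = d f → ∀ᶠ n in atTop, g n < f n}
  have hU : ∀ N, IsOpen (U N) := by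
    intro N
    refine openX.2 ⟨?_, ?_, fun _ => ⟨Eventually.of_forall fun n => by simp [U], fun n => g n + 1,
      fun f hf => ⟨by simp, ?_⟩⟩⟩
    · intro n k l h hk
      refine ⟨?_, by simp⟩
      intro n' k' h' hn
      cases h'
      exact (hk.1 n k rfl hn).trans_le h
    · intro f hf
      refine (hf.2 f rfl).mono fun n hn => ⟨?_, by simp⟩
      intro n' k' h' _
      cases h'
      exact hn
    · intro f' h'
      cases h'
      exact hf
  obtain ⟨N, hN⟩ := K.2.2.1.elim_directed_cover U hU (fun x hx => by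
      cases x with
      | c n k =>
        refine mem_iUnion.2 ⟨n + 1, ?_, by simp⟩
        intro n' k' h' hn
        cases h'
        omega
      | d f => exact absurd hx (hcon f)
      | e n => exact mem_iUnion.2 ⟨0, by simp [U]⟩)
    (Monotone.directed_le fun N M h x hx => ⟨fun n k h1 h2 => hx.1 n k h1 (h.trans h2), hx.2⟩)
  exact absurd ((hN (hg N)).1 N _ rfl le_rfl) (lt_irrefl _)

lemma fin_aux {Z : Type} [TopologicalSpace Z] {C : Set Z} (hC : IsCompact C)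
    (F : Z → Set (ℕ → ℕ)) (hF : ∀ z, (F z).Finite)
    (ho : ∀ W, Big W → IsOpen {z | F z ⊆ W}) : (⋃ z ∈ C, F z).Finite := by
  by_contra hcon
  let s := Set.Infinite.natEmbedding _ hcon
  let W : ℕ → Set (ℕ → ℕ) := fun N => {f | ∀ i, f ≠ (s (i + N)).1}
  obtain ⟨N, hN⟩ := hC.elim_directed_cover (fun N => {z | F z ⊆ W N})
    (fun N => ho _ (big_seq _)) (fun z _ => by
      have h1 : ((fun i => (s i).1) ⁻¹' F z).Finite :=
        (hF z).preimage (Subtype.val_injective.comp s.injective).injOn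
      obtain ⟨N, hN⟩ := h1.bddAbove
      refine mem_iUnion.2 ⟨N + 1, fun f hf i h => ?_⟩
      have := hN (show i + (N + 1) ∈ (fun i => (s i).1) ⁻¹' F z from by
        show (s (i + (N + 1))).1 ∈ F z
        rw [← h]; exact hf)
      omega)
    (Monotone.directed_le fun N M h z hz f hf i h' => hz hf (i + (M - N)) (by
      rw [h']; congr 2; omega))
  obtain ⟨z, hz, h⟩ := mem_iUnion₂.1 (s N).2
  exact hN hz h 0 (by simp)

lemma open_d {W : Set (ℕ → ℕ)} (hW : Big W) : IsOpen {x : XX | {f | x = d f} ⊆ W} :=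
  open_top (by simp) (by simp) (hW.mono fun f hf g hg => by cases hg; exact hf)

lemma fin_d {K : Set XX} (hK : IsCompact K) : {f | d f ∈ K}.Finite := by
  refine (fin_aux hK (fun x => {f | x = d f}) (fun x => ?_) fun W hW => open_d hW).subset
    fun f hf => mem_iUnion₂.2 ⟨d f, hf, rfl⟩
  refine Subsingleton.finite ?_
  rintro f rfl g hg
  cases hg
  rfl

def YY : Type := {q : Set (ℕ → ℕ) × Prop // q.1.Finite ∧ (q.1 = ∅ → q.2)}

instance : TopologicalSpace YY :=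
  TopologicalSpace.generateFrom ({S | ∃ W, Big W ∧ S = {q | q.1.1 ⊆ W}} ∪ {{q | q.1.2}})

lemma oY1 {W : Set (ℕ → ℕ)} (hW : Big W) : IsOpen {q : YY | q.1.1 ⊆ W} :=
  TopologicalSpace.isOpen_generateFrom_of_mem (Or.inl ⟨W, hW, rfl⟩)

lemma oY2 : IsOpen {q : YY | q.1.2} :=
  TopologicalSpace.isOpen_generateFrom_of_mem (Or.inr rfl)

lemma big_compl (f : ℕ → ℕ) : Big {f}ᶜ := (big_seq fun _ => f).mono fun _ hg => hg 0

instance : T0Space YY := by
  have key : ∀ a b : YY, Inseparable a b → a.1.1 ⊆ b.1.1 := by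
    intro a b h f hf
    by_contra hcon
    exact (h.mem_open_iff (oY1 (big_compl f))).2 (subset_compl_singleton_iff.2 hcon) hf rfl
  exact ⟨fun a b h => Subtype.ext (Prod.ext (subset_antisymm (key a b h) (key b a h.symm))
    (propext (h.mem_open_iff oY2)))⟩

lemma WF_Y : WF YY := by
  refine WF_of_finite fun K hK => ?_
  have h1 := fin_aux hK (fun q => q.1.1) (fun q => q.2.1) fun W hW => oY1 hW
  refine Finite.of_finite_image (f := Subtype.val) ?_ Subtype.val_injective.injOn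
  refine (h1.powerset.prod (toFinite (univ : Set Prop))).subset ?_
  rintro _ ⟨q, hq, rfl⟩
  exact ⟨fun f hf => mem_iUnion₂.2 ⟨q, hq, hf⟩, trivial⟩

def phi (K : PS XX) : YY :=
  ⟨({f | d f ∈ K.1}, K ∉ AA), fin_d K.2.2.1, fun h hK => by
    obtain ⟨f, hf⟩ := AA_d hK
    have h' : {f | d f ∈ K.1} = ∅ := h
    exact (h' ▸ (show f ∈ {f | d f ∈ K.1} from hf) : f ∈ (∅ : Set (ℕ → ℕ)))⟩

lemma phi_cont : Continuous phi := by
  refine continuous_generateFrom_iff.2 ?_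
  rintro _ (⟨W, hW, rfl⟩ | rfl)
  · convert box_open (open_d hW) using 1
    ext K
    constructor
    · rintro h x hx f rfl
      exact h hx
    · exact fun h f hf => h hf rfl
  · exact AA_closed.isOpen_compl

lemma no_gen (y : YY) : closure (phi '' AA) ≠ closure {y} := by
  intro h
  have h1 : y ∈ closure (phi '' AA) := h ▸ subset_closure rfl
  have h2 : ¬ y.1.2 := closure_minimal (t := {q : YY | q.1.2}ᶜ)
    (by rintro _ ⟨K, hK, rfl⟩ h; exact h hK) oY2.isClosed_compl h1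
  obtain ⟨f, hf⟩ : y.1.1.Nonempty := nonempty_iff_ne_empty.2 fun h => h2 (y.2.2 h)
  obtain ⟨K, hK, hK'⟩ := approx (closed_d f).isOpen_compl (fun n => ⟨0, by simp⟩)
    ((big_compl f).nonempty.imp fun g hg => by simpa using hg)
  have h3 : phi K ∈ closure {y} := h ▸ subset_closure ⟨K, hK, rfl⟩
  obtain ⟨_, h4, rfl⟩ := mem_closure_iff.1 h3 _ (oY1 (big_compl f))
    (by rintro g hg rfl; exact hK' hg rfl)
  exact h4 hf rfl

end Pool.Agent.H.MP_9fb79a_gt
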